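import Pool.Agent.Helper32.Oval.Final

/-!
The exterior Cauchy transform of the interior of a compact oval of a nonsingular real plane curve
of degree at least three is never algebraic.
-/

open Pool.Agent.Helper32.Oval

theorem Pool.Agent.Results.MP_694451_ag.NeverAlgebraic.result (P : MvPolynomial (Fin 2) ℝ)
    (hd : 3 ≤ P.totalDegree) (hP : NonsingularClosure P) (Γ Ω : Set ℂ) (hΓ : IsCompactOval P Γ)
    (hΩ : IsBoundedComponent Γ Ω) :
    ¬ IsAlgebraicOn (cauchyTransform Ω) (closure Ω)ᶜ :=
  never_algebraic P hd hP Γ Ω hΓ hΩ
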